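import Pool.Agent.P.MP_d5c55f_an.Transfer

/-! The square function of the divisor-weighted averages is bounded on `L²`, with an absolute
constant. -/

open Finset MeasureTheory
open scoped ENNReal

namespace Pool.Agent.Results.MP_d5c55f_an.SquareFunction

/-- The divisor-weighted average `A_n f (x) = W_n⁻¹ ∑_{k=1}^n d(k) f(τ^k x)`. -/
noncomputable def avg {X : Type*} (τ : X → X) (f : X → ℂ) (n : ℕ) (x : X) : ℂ :=
  (∑ k ∈ Icc 1 n, ((Nat.divisors k).card : ℂ) * f (τ^[k] x)) /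
    (∑ k ∈ Icc 1 n, ((Nat.divisors k).card : ℂ))

/-- The square function `S_N(f)(x)`, with values in `[0, ∞]`. -/
noncomputable def sqFun {X : Type*} (τ : X → X) (n : ℕ → ℕ) (f : X → ℂ) (x : X) : ℝ≥0∞ :=
  (∑' j, ‖avg τ f (n (j + 1)) x - avg τ f (n j) x‖ₑ ^ 2) ^ (1 / 2 : ℝ)

open Pool.Agent.P.MP_d5c55f_an

theorem avg_iter {X : Type*} (τ : X → X) (f : X → ℂ) (n m : ℕ) (x : X) :
    avg τ f n (τ^[m] x) = B n (fun l => f (τ^[l] x)) m := by
  unfold avg B W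
  push_cast
  congr 1
  refine Finset.sum_congr rfl fun k _ => ?_
  rw [add_comm, Function.iterate_add_apply]

theorem lint_iter {X : Type*} [MeasurableSpace X] {μ : Measure X} {τ : X → X}
    (hτ : MeasurePreserving τ μ μ) {g : X → ℝ≥0∞} (hg : AEMeasurable g μ) (m : ℕ) :
    ∫⁻ x, g (τ^[m] x) ∂μ = ∫⁻ x, g x ∂μ := by
  have h := hτ.iterate m
  rw [← lintegral_map' (by rwa [h.map_eq]) h.aemeasurable, h.map_eq]

theorem sq_bound {X : Type*} [MeasurableSpace X] {μ : Measure X} {τ : X → X}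
    (hτ : MeasurePreserving τ μ μ) (n : ℕ → ℕ) (hn : Monotone n) (h1 : ∀ j, 1 ≤ n j)
    (f : X → ℂ) (hf : AEMeasurable f μ) :
    ∫⁻ x, ∑' j, ‖avg τ f (n (j + 1)) x - avg τ f (n j) x‖ₑ ^ 2 ∂μ ≤
      320000 * ∫⁻ x, ‖f x‖ₑ ^ 2 ∂μ := by
  have hk : ∀ k, AEMeasurable (fun x => f (τ^[k] x)) μ := fun k =>
    hf.comp_quasiMeasurePreserving (hτ.iterate k).quasiMeasurePreserving
  have ha : ∀ m, AEMeasurable (avg τ f m) μ := fun m =>
    (Finset.aemeasurable_fun_sum _ fun k _ => (hk k).const_mul _).div_const _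
  have hd : ∀ j, AEMeasurable (fun x => ‖avg τ f (n (j + 1)) x - avg τ f (n j) x‖ₑ ^ 2) μ :=
    fun j => ((ha _).sub (ha _)).enorm.pow_const _
  have hf2 : AEMeasurable (fun x => ‖f x‖ₑ ^ 2) μ := hf.enorm.pow_const _
  rw [lintegral_tsum hd, ENNReal.tsum_eq_iSup_nat]
  refine iSup_le fun J => ?_
  set M := n J with hM
  have hM0 : (M : ℝ≥0∞) ≠ 0 := by have := h1 J; exact_mod_cast (by omega : M ≠ 0)
  have pt : ∀ x, ∑ j ∈ range J, ∑ m ∈ range M,
      ‖avg τ f (n (j + 1)) (τ^[m] x) - avg τ f (n j) (τ^[m] x)‖ₑ ^ 2 ≤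
      160000 * ∑ m ∈ range (2 * M), ‖f (τ^[m] x)‖ₑ ^ 2 := by
    intro x
    have h := seq_bound n hn h1 J M le_rfl (fun l => f (τ^[l] x))
    simp only [avg_iter, enorm_eq_nnnorm]
    have h' : ∑ j ∈ range J, ∑ m ∈ range M, ‖B (n (j + 1)) (fun l => f (τ^[l] x)) m -
        B (n j) (fun l => f (τ^[l] x)) m‖₊ ^ 2 ≤
        160000 * ∑ m ∈ range (2 * M), ‖f (τ^[m] x)‖₊ ^ 2 := by
      rw [← NNReal.coe_le_coe]; push_cast; exact h
    exact_mod_cast h'
  have hdm : ∀ j m, AEMeasurable (fun x =>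
      ‖avg τ f (n (j + 1)) (τ^[m] x) - avg τ f (n j) (τ^[m] x)‖ₑ ^ 2) μ := fun j m =>
    (hd j).comp_quasiMeasurePreserving (hτ.iterate m).quasiMeasurePreserving
  have int := lintegral_mono (μ := μ) pt
  rw [lintegral_finsetSum' _ fun j _ => Finset.aemeasurable_fun_sum _ fun m _ => hdm j m,
    lintegral_const_mul' _ _ (by norm_num),
    lintegral_finsetSum' _ fun m _ => (hk m).enorm.pow_const _] at int
  simp only [lintegral_finsetSum' _ fun m _ => hdm _ m, lint_iter hτ (hd _), lint_iter hτ hf2,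
    sum_const, card_range, nsmul_eq_mul] at int
  rw [← Finset.mul_sum] at int
  refine (ENNReal.mul_le_mul_iff_right hM0 (ENNReal.natCast_ne_top M)).1 (int.trans (le_of_eq ?_))
  push_cast
  ring

theorem result {X : Type*} [MeasurableSpace X] (μ : Measure X) [IsProbabilityMeasure μ]
    (τ : X → X) (hτ : MeasurePreserving τ μ μ) (n : ℕ → ℕ) (hn : StrictMono n)
    (h1 : ∀ j, 1 ≤ n j) (f : X → ℂ) (hf : MemLp f 2 μ) :
    eLpNorm (sqFun τ n f) 2 μ ≤ 600 * eLpNorm f 2 μ := by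
  have h := sq_bound hτ n hn.monotone h1 f hf.1.aemeasurable
  rw [eLpNorm_eq_lintegral_rpow_enorm_toReal two_ne_zero ENNReal.ofNat_ne_top,
    eLpNorm_eq_lintegral_rpow_enorm_toReal two_ne_zero ENNReal.ofNat_ne_top]
  simp only [ENNReal.toReal_ofNat, enorm_eq_self, sqFun, ← ENNReal.rpow_mul]
  norm_num
  have e : (600 : ℝ≥0∞) = (360000 : ℝ≥0∞) ^ (1 / 2 : ℝ) := by
    rw [show (360000 : ℝ≥0∞) = 600 ^ (2 : ℝ) by norm_num, ← ENNReal.rpow_mul]; norm_num
  rw [e, ← ENNReal.mul_rpow_of_nonneg _ _ (by norm_num)]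
  refine ENNReal.rpow_le_rpow (h.trans ?_) (by norm_num)
  gcongr
  norm_num

end Pool.Agent.Results.MP_d5c55f_an.SquareFunction
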